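import Pool.Agent.H28.FK.Def

/-! # [H28 FK ALG] Multiplication by a nonzero polynomial is bounded below in the Fischer norm

Write `⟨F, G⟩ = fis F G`, linear in `F`, conjugate linear in `G`.
* `fis_conj`, `fis_self`: both sides are the sum of `α! F_α conj(G_α)` over the support (`Bp_eq_tsum` or `Bp_monomial`).
* `fis_pderiv`: `Bp_pderiv` and `MvPolynomial.coe_mul`, `coe_X`. `fis_Dop`: `Bp_Dop`.
* `fis_ext`: if `⟨A, H⟩ = ⟨B, H⟩` for all `H` then `A = B` (take `H` a monomial).
* Hence, testing with all `H`: `Dop (P + Q) F = Dop P F + Dop Q F`, `Dop (C c * P) F = C (conj c) * Dop P F`,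
  `Dop (X j * P) F = Dop P (∂_j F)`, `Dop 1 F = F`.
* For `k : ℕ` define `S k P R F G` by recursion on `k`: `S 0 P R F G = ⟨Dop R F, Dop P G⟩`,
  `S (k+1) P R F G = ∑ j, S k (∂_j P) (∂_j R) F G`. It is additive in `P`. By induction on `k` (for all `P, R`):
  `S k (X_j P) R F G = S k P R F (∂_j G) + k S (k-1) P (∂_j R) F G`:
  `S (k+1) (X_j P) R = ∑_i S k (δ_ij P + X_j ∂_i P) (∂_i R) = S k P (∂_j R) + ∑_i [S k (∂_i P) (∂_i R) F (∂_j G) +
  k S (k-1) (∂_i P) (∂_j ∂_i R)] = S k P (∂_j R) + S (k+1) P R F (∂_j G) + k S k P (∂_j R)`.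
* Identity: `⟨P F, R G⟩ = ∑_{k ≤ K} S k P R F G / k!` whenever `P.totalDegree ≤ K`. Induction on `P` (`induction_on` type: constants,
  sums are handled by proving it for monomials of degree at most `K`, or directly: the statement for all `K` and all `P` in
  the span of the monomials of degree at most `K`). For `P = 1`: `S k 1 R = 0` for `k ≥ 1`, `S 0 = ⟨Dop R F, G⟩ = ⟨F, R G⟩`. Step:
  `⟨X_j P F, R G⟩ = ⟨P F, ∂_j (R G)⟩ = ⟨P F, (∂_j R) G⟩ + ⟨P F, R ∂_j G⟩`, equal to
  `∑_k [S k P (∂_j R) F G + S k P R F (∂_j G)] / k!`, and the sum for `X_j P` is the same by the recursion (shift `k`).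
* For `R = P`, `F = G`: every `S k P P F F` is a sum of numbers `⟨Dop Q F, Dop Q F⟩ = fn2 (Dop Q F) ≥ 0`, where `Q = ∂_{t_1} … ∂_{t_k} P`.
  For `k = d = P.totalDegree` the `Q` are constants, not all zero (for a monomial `m` of degree `d` in the support the
  corresponding `Q` is `m! P_m`: only the monomial `m` survives), and `Dop (C c) F = C (conj c) * F`. So
  `fn2 (P F) ≥ (1/d!) ∑_t |Q_t|^2 fn2 F = c fn2 F`, `c > 0`. -/

set_option autoImplicit false

open MvPolynomial Pool.Agent.H60
open scoped Topology ENNReal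

noncomputable section

namespace Pool.Agent.H28.FK

variable {n : ℕ}

private theorem fis_form (F G : MvPolynomial (Fin n) ℂ) : fis F G =
    ∑ α ∈ F.support ∪ G.support,
      F.coeff α * ((fac α : ℂ) * (starRingEnd ℂ) (G.coeff α)) := by
  unfold fis
  rw [Bp_eq_tsum, tsum_eq_sum (s := F.support ∪ G.support)]
  · exact Finset.sum_congr rfl (fun α _ => by rw [MvPolynomial.coeff_coe])
  · intro β hβ
    rw [Finset.mem_union, not_or] at hβ
    rw [notMem_support_iff.mp hβ.1, zero_mul]

theorem fis_conj (F G : MvPolynomial (Fin n) ℂ) : (starRingEnd ℂ) (fis F G) = fis G F := by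
  rw [fis_form, fis_form, map_sum, Finset.union_comm]
  refine Finset.sum_congr rfl (fun α _ => ?_)
  rw [map_mul, map_mul, Complex.conj_conj, Complex.conj_natCast]
  ring

theorem fis_self (F : MvPolynomial (Fin n) ℂ) : fis F F = (fn2 F : ℂ) := by
  rw [fis_form, Finset.union_self]
  unfold fn2
  push_cast
  refine Finset.sum_congr rfl (fun α _ => ?_)
  have h := Complex.mul_conj (F.coeff α)
  rw [Complex.normSq_eq_norm_sq] at h
  push_cast at h
  linear_combination (fac α : ℂ) * h

theorem fis_Dop (P F G : MvPolynomial (Fin n) ℂ) : fis (Dop P F) G = fis F (P * G) := by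
  unfold fis
  rw [Bp_Dop, MvPolynomial.coe_mul]

private theorem fis_add_l (F F' G : MvPolynomial (Fin n) ℂ) :
    fis (F + F') G = fis F G + fis F' G := by
  unfold fis
  rw [map_add]

private theorem fis_add_r (F G G' : MvPolynomial (Fin n) ℂ) :
    fis F (G + G') = fis F G + fis F G' := by
  unfold fis
  rw [MvPolynomial.coe_add, Bp_add]

private theorem fis_C_l (c : ℂ) (F G : MvPolynomial (Fin n) ℂ) :
    fis (C c * F) G = c * fis F G := by
  unfold fis
  rw [← smul_eq_C_mul, map_smul, smul_eq_mul]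

private theorem fis_C_r (c : ℂ) (F G : MvPolynomial (Fin n) ℂ) :
    fis F (C c * G) = (starRingEnd ℂ) c * fis F G := by
  rw [← fis_conj, fis_C_l, map_mul, fis_conj]

private theorem fis_mono (A : MvPolynomial (Fin n) ℂ) (α : Fin n →₀ ℕ) :
    fis A (monomial α (1 : ℂ)) = (fac α : ℂ) * A.coeff α := by
  rw [← fis_conj]
  have h : fis (monomial α (1 : ℂ)) A = (1 : ℂ) * ((fac α : ℂ) * (starRingEnd ℂ) (A.coeff α)) := by
    unfold fis
    rw [Bp_monomial, MvPolynomial.coeff_coe]
  rw [h, one_mul, map_mul, Complex.conj_conj, Complex.conj_natCast]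

private theorem fis_ext {A B : MvPolynomial (Fin n) ℂ} (h : ∀ H, fis A H = fis B H) : A = B := by
  ext α
  have h1 := h (monomial α (1 : ℂ))
  rw [fis_mono, fis_mono] at h1
  have h2 : (fac α : ℂ) ≠ 0 := by exact_mod_cast (fac_pos α).ne'
  exact mul_left_cancel₀ h2 h1

private theorem fis_pd (F G : MvPolynomial (Fin n) ℂ) (j : Fin n) :
    fis (pderiv j F) G = fis F (X j * G) := by
  unfold fis
  rw [Bp_pderiv, MvPolynomial.coe_mul, MvPolynomial.coe_X]

private theorem fis_pd' (F G : MvPolynomial (Fin n) ℂ) (j : Fin n) :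
    fis F (pderiv j G) = fis (X j * F) G := by
  rw [← fis_conj, fis_pd, fis_conj]

private theorem Dop_add (P Q F : MvPolynomial (Fin n) ℂ) :
    Dop (P + Q) F = Dop P F + Dop Q F := by
  apply fis_ext
  intro H
  rw [fis_Dop, fis_add_l, fis_Dop, fis_Dop, add_mul, fis_add_r]

private theorem Dop_X (P F : MvPolynomial (Fin n) ℂ) (j : Fin n) :
    Dop (X j * P) F = Dop P (pderiv j F) := by
  apply fis_ext
  intro H
  rw [fis_Dop, fis_Dop, fis_pd, mul_assoc]

private theorem Dop_C (c : ℂ) (F : MvPolynomial (Fin n) ℂ) :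
    Dop (C c) F = C ((starRingEnd ℂ) c) * F := by
  apply fis_ext
  intro H
  rw [fis_Dop, fis_C_r, fis_C_l]

/-- the derivative terms -/
private def SS : ℕ → MvPolynomial (Fin n) ℂ → MvPolynomial (Fin n) ℂ → MvPolynomial (Fin n) ℂ →
    MvPolynomial (Fin n) ℂ → ℂ
  | 0, P, R, F, G => fis (Dop R F) (Dop P G)
  | k + 1, P, R, F, G => ∑ j, SS k (pderiv j P) (pderiv j R) F G

private theorem SS_succ (k : ℕ) (P R F G : MvPolynomial (Fin n) ℂ) :
    SS (k + 1) P R F G = ∑ j, SS k (pderiv j P) (pderiv j R) F G := rfl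

private theorem SS_add (k : ℕ) : ∀ P Q R F G : MvPolynomial (Fin n) ℂ,
    SS k (P + Q) R F G = SS k P R F G + SS k Q R F G := by
  induction k with
  | zero =>
    intro P Q R F G
    show fis (Dop R F) (Dop (P + Q) G) = fis (Dop R F) (Dop P G) + fis (Dop R F) (Dop Q G)
    rw [Dop_add, fis_add_r]
  | succ k ih =>
    intro P Q R F G
    rw [SS_succ, SS_succ, SS_succ, ← Finset.sum_add_distrib]
    exact Finset.sum_congr rfl (fun j _ => by rw [map_add, ih])

private theorem SS_zero (k : ℕ) (R F G : MvPolynomial (Fin n) ℂ) : SS k 0 R F G = 0 := by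
  have h := SS_add k 0 0 R F G
  rw [add_zero] at h
  linear_combination -h

private theorem SS_C (k : ℕ) (a : ℂ) (R F G : MvPolynomial (Fin n) ℂ) :
    SS (k + 1) (C a) R F G = 0 := by
  rw [SS_succ]
  refine Finset.sum_eq_zero (fun j _ => ?_)
  rw [pderiv_C, SS_zero]

private theorem SS_X (j : Fin n) (k : ℕ) : ∀ P R F G : MvPolynomial (Fin n) ℂ,
    SS (k + 1) (X j * P) R F G = SS (k + 1) P R F (pderiv j G) +
      ((k : ℂ) + 1) * SS k P (pderiv j R) F G := by
  have h0 : ∀ P R F G : MvPolynomial (Fin n) ℂ, SS 0 (X j * P) R F G = SS 0 P R F (pderiv j G) := by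
    intro P R F G
    show fis (Dop R F) (Dop (X j * P) G) = fis (Dop R F) (Dop P (pderiv j G))
    rw [Dop_X]
  have hd : ∀ (i : Fin n) (P : MvPolynomial (Fin n) ℂ),
      pderiv i (X j * P) = (if i = j then P else 0) + X j * pderiv i P := by
    intro i P
    rw [(pderiv i).leibniz, smul_eq_mul, smul_eq_mul, pderiv_X, add_comm]
    congr 1
    by_cases h : i = j
    · subst h
      simp
    · have h' : j ≠ i := fun hc => h hc.symm
      simp [h, h']
  have hite : ∀ (l : ℕ) (P R F G : MvPolynomial (Fin n) ℂ),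
      ∑ i, SS l (if i = j then P else 0) (pderiv i R) F G = SS l P (pderiv j R) F G := by
    intro l P R F G
    rw [Finset.sum_eq_single j]
    · rw [if_pos rfl]
    · intro b _ hb
      rw [if_neg hb, SS_zero]
    · intro h
      exact absurd (Finset.mem_univ j) h
  have hcomm : ∀ (i : Fin n) (R : MvPolynomial (Fin n) ℂ),
      pderiv j (pderiv i R) = pderiv i (pderiv j R) := by
    intro i R
    ext m
    simp only [coeff_pderiv]
    rw [add_right_comm m (Finsupp.single j 1) (Finsupp.single i 1)]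
    by_cases h : i = j
    · subst h
      ring
    · have h' : ¬ j = i := fun hc => h hc.symm
      simp [h, h']
      ring
  induction k with
  | zero =>
    intro P R F G
    rw [SS_succ]
    simp_rw [hd, SS_add, h0]
    rw [Finset.sum_add_distrib, hite, SS_succ]
    push_cast
    ring
  | succ k ih =>
    intro P R F G
    rw [SS_succ]
    simp_rw [hd, SS_add, ih]
    rw [Finset.sum_add_distrib, hite, Finset.sum_add_distrib, ← SS_succ, ← Finset.mul_sum]
    simp_rw [hcomm]
    rw [← SS_succ]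
    push_cast
    ring

private theorem main_id (P : MvPolynomial (Fin n) ℂ) : ∃ K₀ : ℕ, ∀ K, K₀ ≤ K →
    ∀ R F G : MvPolynomial (Fin n) ℂ,
      fis (P * F) (R * G) = ∑ k ∈ Finset.range (K + 1), SS k P R F G / (k.factorial : ℂ) := by
  induction P using MvPolynomial.induction_on with
  | C a =>
    refine ⟨0, fun K _ R F G => ?_⟩
    rw [Finset.sum_range_succ']
    have h1 : ∀ k ∈ Finset.range K, SS (k + 1) (C a) R F G / ((k + 1).factorial : ℂ) = 0 :=
      fun k _ => by rw [SS_C, zero_div]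
    rw [Finset.sum_eq_zero h1, zero_add, Nat.factorial_zero, Nat.cast_one, div_one]
    show _ = fis (Dop R F) (Dop (C a) G)
    rw [Dop_C, fis_C_r, Complex.conj_conj, fis_C_l, fis_Dop]
  | add P Q hP hQ =>
    obtain ⟨K₁, h1⟩ := hP
    obtain ⟨K₂, h2⟩ := hQ
    refine ⟨max K₁ K₂, fun K hK R F G => ?_⟩
    rw [add_mul, fis_add_l, h1 K ((le_max_left _ _).trans hK), h2 K ((le_max_right _ _).trans hK),
      ← Finset.sum_add_distrib]
    exact Finset.sum_congr rfl (fun k _ => by rw [SS_add, add_div])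
  | mul_X P j hP =>
    obtain ⟨K₀, h⟩ := hP
    refine ⟨K₀ + 1, fun K hK R F G => ?_⟩
    obtain ⟨L, rfl⟩ : ∃ L, K = L + 1 := ⟨K - 1, by omega⟩
    have hL : K₀ ≤ L := by omega
    have e1 : fis (P * X j * F) (R * G) = fis (P * F) (pderiv j R * G) +
        fis (P * F) (R * pderiv j G) := by
      have e2 : P * X j * F = X j * (P * F) := by ring
      rw [e2, ← fis_pd', (pderiv j).leibniz, smul_eq_mul, smul_eq_mul, add_comm, fis_add_r,
        mul_comm G]
    rw [e1, h L hL, h (L + 1) (by omega), mul_comm P (X j), Finset.sum_range_succ' _ (L + 1),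
      Finset.sum_range_succ' _ (L + 1)]
    have e3 : SS 0 (X j * P) R F G = SS 0 P R F (pderiv j G) := by
      show fis (Dop R F) (Dop (X j * P) G) = fis (Dop R F) (Dop P (pderiv j G))
      rw [Dop_X]
    rw [e3, ← add_assoc, ← Finset.sum_add_distrib]
    congr 1
    refine Finset.sum_congr rfl (fun k _ => ?_)
    rw [SS_X, Nat.factorial_succ]
    have h1 : (k.factorial : ℂ) ≠ 0 := by exact_mod_cast Nat.factorial_ne_zero k
    have h2 : (k : ℂ) + 1 ≠ 0 := by exact_mod_cast Nat.succ_ne_zero k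
    push_cast
    field_simp
    ring

private def NNn : ℕ → MvPolynomial (Fin n) ℂ → MvPolynomial (Fin n) ℂ → ℝ
  | 0, P, F => fn2 (Dop P F)
  | k + 1, P, F => ∑ j, NNn k (pderiv j P) F

private theorem fn2_nonneg (F : MvPolynomial (Fin n) ℂ) : 0 ≤ fn2 F :=
  Finset.sum_nonneg (fun α _ => by positivity)

private theorem NNn_nonneg (k : ℕ) : ∀ P F : MvPolynomial (Fin n) ℂ, 0 ≤ NNn k P F := by
  induction k with
  | zero => exact fun P F => fn2_nonneg _
  | succ k ih => exact fun P F => Finset.sum_nonneg (fun j _ => ih _ _)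

private theorem SS_NNn (k : ℕ) : ∀ P F : MvPolynomial (Fin n) ℂ,
    SS k P P F F = ((NNn k P F : ℝ) : ℂ) := by
  induction k with
  | zero => exact fun P F => fis_self _
  | succ k ih =>
    intro P F
    have h : NNn (k + 1) P F = ∑ j, NNn k (pderiv j P) F := rfl
    rw [SS_succ, h, Complex.ofReal_sum]
    exact Finset.sum_congr rfl (fun j _ => ih _ _)

private theorem fn2_C (c : ℂ) (F : MvPolynomial (Fin n) ℂ) :
    fn2 (C c * F) = ‖c‖ ^ 2 * fn2 F := by
  have h : ((fn2 (C c * F) : ℝ) : ℂ) = ((‖c‖ ^ 2 * fn2 F : ℝ) : ℂ) := by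
    rw [← fis_self, fis_C_l, fis_C_r, fis_self]
    have h1 := Complex.mul_conj c
    rw [Complex.normSq_eq_norm_sq] at h1
    push_cast at h1 ⊢
    linear_combination (fn2 F : ℂ) * h1
  exact_mod_cast h

private theorem NNn_low (d : ℕ) : ∀ (P : MvPolynomial (Fin n) ℂ) (m : Fin n →₀ ℕ), m.degree = d →
    P.coeff m ≠ 0 → (∀ m', P.coeff m' ≠ 0 → m ≤ m' → m' = m) →
    ∃ (k : ℕ) (c : ℝ), 0 < c ∧ ∀ F, c * fn2 F ≤ NNn k P F := by
  induction d with
  | zero =>
    intro P m hm hP hmax
    have hm0 : m = 0 := (Finsupp.degree_eq_zero_iff m).1 hm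
    subst hm0
    have hPC : P = C (P.coeff 0) := by
      ext m'
      rw [coeff_C]
      by_cases h : 0 = m'
      · rw [if_pos h, ← h]
      · rw [if_neg h]
        by_contra hc
        exact h (hmax m' hc zero_le).symm
    refine ⟨0, ‖P.coeff 0‖ ^ 2, by positivity, fun F => ?_⟩
    show _ ≤ fn2 (Dop P F)
    rw [hPC, Dop_C, fn2_C, coeff_C, if_pos rfl]
    rw [RCLike.norm_conj]
  | succ d ih =>
    intro P m hm hP hmax
    have hm0 : m ≠ 0 := by
      rintro rfl
      simp at hm
    obtain ⟨j, hj⟩ := Finsupp.ne_iff.1 hm0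
    rw [Finsupp.coe_zero, Pi.zero_apply] at hj
    have hsub : (m - Finsupp.single j 1) + Finsupp.single j 1 = m :=
      tsub_add_cancel_of_le (by rw [Finsupp.single_le_iff]; omega)
    have hdeg : (m - Finsupp.single j 1 : Fin n →₀ ℕ).degree = d := by
      have h1 := congrArg Finsupp.degree hsub
      rw [map_add, Finsupp.degree_single] at h1
      omega
    have hc : ∀ m', (pderiv j P).coeff m' = P.coeff (m' + Finsupp.single j 1) * ((m' j : ℂ) + 1) :=
      fun m' => coeff_pderiv P m'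
    obtain ⟨k, c, hc0, hk⟩ := ih (pderiv j P) (m - Finsupp.single j 1) hdeg (by
      rw [hc, hsub]
      exact mul_ne_zero hP (Nat.cast_add_one_ne_zero _)) (by
      intro m' h1 h2
      rw [hc] at h1
      have h3 := hmax (m' + Finsupp.single j 1) (left_ne_zero_of_mul h1) (by
        rw [← hsub]
        exact add_le_add_left h2 _)
      exact eq_tsub_of_add_eq h3)
    refine ⟨k + 1, c, hc0, fun F => (hk F).trans ?_⟩
    show _ ≤ ∑ j, NNn k (pderiv j P) F
    exact Finset.single_le_sum (f := fun j => NNn k (pderiv j P) F)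
      (fun i _ => NNn_nonneg _ _ _) (Finset.mem_univ j)

theorem lower_bd {P : MvPolynomial (Fin n) ℂ} (hP : P ≠ 0) :
    ∃ c : ℝ, 0 < c ∧ ∀ F : MvPolynomial (Fin n) ℂ, c * fn2 F ≤ fn2 (P * F) := by
  obtain ⟨K₀, h⟩ := main_id P
  obtain ⟨m, hm, hmax⟩ := Finset.exists_max_image P.support (fun m => m.degree)
    (support_nonempty.2 hP)
  have hlow := NNn_low m.degree P m rfl (mem_support_iff.1 hm) (by
    intro m' h1 h2
    have h3 := hmax m' (mem_support_iff.2 h1)
    have h4 : m + (m' - m) = m' := add_tsub_cancel_of_le h2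
    have h5 := congrArg Finsupp.degree h4
    rw [map_add] at h5
    have h6 : (m' - m : Fin n →₀ ℕ) = 0 := (Finsupp.degree_eq_zero_iff _).1 (by omega)
    rw [h6, add_zero] at h4
    exact h4.symm)
  obtain ⟨k, c, hc, hk⟩ := hlow
  refine ⟨c / k.factorial, by positivity, fun F => ?_⟩
  have e1 := h (max K₀ k) (le_max_left _ _) P F F
  have e2 : fn2 (P * F) = ∑ l ∈ Finset.range (max K₀ k + 1), NNn l P F / (l.factorial : ℝ) := by
    have e3 : ((fn2 (P * F) : ℝ) : ℂ) =
        ((∑ l ∈ Finset.range (max K₀ k + 1), NNn l P F / (l.factorial : ℝ) : ℝ) : ℂ) := by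
      rw [← fis_self, e1]
      push_cast
      exact Finset.sum_congr rfl (fun l _ => by rw [SS_NNn])
    exact_mod_cast e3
  rw [e2]
  have hmem : k ∈ Finset.range (max K₀ k + 1) := by
    rw [Finset.mem_range]
    exact Nat.lt_succ_of_le (le_max_right _ _)
  have h7 := Finset.single_le_sum (f := fun l => NNn l P F / (l.factorial : ℝ))
    (fun l _ => div_nonneg (NNn_nonneg _ _ _) (by positivity)) hmem
  refine le_trans ?_ h7
  have h8 := hk F
  have h9 : (0 : ℝ) < k.factorial := by positivity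
  rw [div_mul_eq_mul_div]
  exact div_le_div_of_nonneg_right h8 h9.le

end Pool.Agent.H28.FK
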