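import Pool.Agent.H28.FK.Def

/-! # Cauchy estimates on polydiscs -/

set_option autoImplicit false

open MvPolynomial Pool.Agent.H60
open scoped Topology ENNReal

noncomputable section

namespace Pool.Agent.H28.FK

variable {n : ℕ}

private theorem iter_poly (k : ℕ) : ∀ p : Polynomial ℂ,
    iteratedDeriv k (fun τ => p.eval τ) = fun τ => (Polynomial.derivative^[k] p).eval τ := by
  induction k with
  | zero => intro p; rw [iteratedDeriv_zero]; rfl
  | succ k ih =>
    intro p
    rw [iteratedDeriv_succ, ih]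
    funext τ
    rw [Function.iterate_succ_apply', Polynomial.deriv]

private theorem cau1 (p : Polynomial ℂ) (R M : ℝ) (hR : 0 < R)
    (hM : ∀ τ : ℂ, ‖τ‖ ≤ R → ‖p.eval τ‖ ≤ M) (k : ℕ) : ‖p.coeff k‖ * R ^ k ≤ M := by
  have h1 := Complex.norm_iteratedDeriv_le_of_forall_mem_sphere_norm_le (c := 0) (R := R)
    (C := M) (f := fun τ => p.eval τ) k hR
    (Differentiable.diffContOnCl (Polynomial.differentiable p)) (fun z hz => by
      rw [mem_sphere_zero_iff_norm] at hz
      exact hM z hz.le)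
  rw [iter_poly] at h1
  have h2 : (Polynomial.derivative^[k] p).eval 0 = (k.factorial : ℂ) * p.coeff k := by
    rw [← Polynomial.coeff_zero_eq_eval_zero, Polynomial.coeff_iterate_derivative, zero_add,
      Nat.descFactorial_self, nsmul_eq_mul]
  simp only [h2] at h1
  rw [norm_mul, Complex.norm_natCast, mul_div_assoc] at h1
  have hk : (0 : ℝ) < k.factorial := by exact_mod_cast Nat.factorial_pos k
  have h3 := le_of_mul_le_mul_left h1 hk
  rwa [le_div_iff₀ (by positivity)] at h3

theorem cauchy_poly : ∀ (n : ℕ) (W : MvPolynomial (Fin n) ℂ) (R M : ℝ), 0 < R →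
    (∀ z : V n, ‖z‖ ≤ R → ‖ev W z‖ ≤ M) → ∀ α : Fin n →₀ ℕ, ‖W.coeff α‖ * R ^ α.degree ≤ M := by
  intro n
  induction n with
  | zero =>
    intro W R M hR hM α
    have hα : α = 0 := Subsingleton.elim _ _
    subst hα
    have h1 := hM 0 (by rw [norm_zero]; exact hR.le)
    have hC : W = C (W.coeff 0) := by
      ext m
      have hm : m = 0 := Subsingleton.elim _ _
      rw [hm, coeff_C, if_pos rfl]
    have h2 : ev W 0 = W.coeff 0 := by
      unfold ev
      conv_lhs => rw [hC]
      rw [eval_C]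
    rw [h2] at h1
    simpa using h1
  | succ n ih =>
    intro W R M hR hM α
    set q := finSuccEquiv ℂ n W with hq
    have h1 : ∀ w : V n, ‖w‖ ≤ R → ‖ev (q.coeff (α 0)) w‖ ≤ M / R ^ α 0 := by
      intro w hw
      have h2 := cau1 (q.map (eval w)) R M hR (fun τ hτ => by
        have h3 := hM (Fin.cons τ w) (by
          rw [pi_norm_le_iff_of_nonneg hR.le]
          intro i
          refine Fin.cases ?_ (fun j => ?_) i
          · simp only [Fin.cons_zero]
            exact hτ
          · simp only [Fin.cons_succ]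
            exact (norm_le_pi_norm w j).trans hw)
        unfold ev at h3
        rwa [eval_eq_eval_mv_eval'] at h3) (α 0)
      rw [Polynomial.coeff_map] at h2
      rw [le_div_iff₀ (by positivity)]
      exact h2
    have h2 := ih (q.coeff (α 0)) R (M / R ^ α 0) hR h1 (Finsupp.tail α)
    rw [hq, finSuccEquiv_coeff_coeff, Finsupp.cons_tail, le_div_iff₀ (by positivity)] at h2
    have h3 : α.degree = (Finsupp.tail α).degree + α 0 := by
      rw [Finsupp.degree_eq_sum, Finsupp.degree_eq_sum, Fin.sum_univ_succ, add_comm]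
      rfl
    rw [h3, pow_add, ← mul_assoc]
    exact h2

theorem cauchy_series (v : MvPowerSeries (Fin n) ℂ) (h : V n → ℂ)
    (hs : ∀ z, HasSum (fun α : Fin n →₀ ℕ => MvPowerSeries.coeff α v * ∏ j, z j ^ α j) (h z))
    (R M : ℝ) (hR : 0 < R) (hM : ∀ z : V n, ‖z‖ ≤ R → ‖h z‖ ≤ M) (β : Fin n →₀ ℕ) :
    ‖MvPowerSeries.coeff β v‖ * R ^ β.degree ≤ M := by
  -- absolute summability at the radius R
  have hsum : Summable (fun α : Fin n →₀ ℕ => ‖MvPowerSeries.coeff α v‖ * R ^ α.degree) := by
    have h1 := (hs (fun _ => (R : ℂ))).summable.norm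
    refine h1.congr (fun α => ?_)
    rw [norm_mul, norm_prod, Finsupp.degree_eq_sum, ← Finset.prod_pow_eq_pow_sum]
    congr 1
    refine Finset.prod_congr rfl (fun j _ => ?_)
    rw [norm_pow, Complex.norm_real, Real.norm_of_nonneg hR.le]
  have hterm : ∀ (z : V n), ‖z‖ ≤ R → ∀ α : Fin n →₀ ℕ,
      ‖MvPowerSeries.coeff α v * ∏ j, z j ^ α j‖ ≤ ‖MvPowerSeries.coeff α v‖ * R ^ α.degree := by
    intro z hz α
    rw [norm_mul, norm_prod, Finsupp.degree_eq_sum, ← Finset.prod_pow_eq_pow_sum]
    refine mul_le_mul_of_nonneg_left ?_ (norm_nonneg _)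
    refine Finset.prod_le_prod (fun j _ => norm_nonneg _) (fun j _ => ?_)
    rw [norm_pow]
    exact pow_le_pow_left₀ (norm_nonneg _) ((norm_le_pi_norm z j).trans hz) _
  refine le_of_forall_pos_le_add (fun ε hε => ?_)
  have htail := tendsto_tsum_compl_atTop_zero
    (fun α : Fin n →₀ ℕ => ‖MvPowerSeries.coeff α v‖ * R ^ α.degree)
  obtain ⟨s, hsβ, hsε⟩ : ∃ s : Finset (Fin n →₀ ℕ), β ∈ s ∧
      ∑' α : {x // x ∉ s}, ‖MvPowerSeries.coeff α.1 v‖ * R ^ α.1.degree ≤ ε := by
    have h1 := (htail.eventually (gt_mem_nhds hε)).and (Filter.eventually_ge_atTop {β})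
    obtain ⟨s, h2, h3⟩ := h1.exists
    exact ⟨s, h3 (Finset.mem_singleton_self β), h2.le⟩
  -- the truncated polynomial
  set p : MvPolynomial (Fin n) ℂ := ∑ α ∈ s, monomial α (MvPowerSeries.coeff α v) with hp
  have hpc : p.coeff β = MvPowerSeries.coeff β v := by
    classical
    rw [hp, coeff_sum]
    simp only [coeff_monomial]
    rw [Finset.sum_ite_eq' s β, if_pos hsβ]
  have hpe : ∀ z, ev p z = ∑ α ∈ s, MvPowerSeries.coeff α v * ∏ j, z j ^ α j := by
    intro z
    unfold ev
    rw [hp, map_sum]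
    refine Finset.sum_congr rfl (fun α _ => ?_)
    rw [eval_monomial, Finsupp.prod_fintype _ _ (fun i => pow_zero _)]
  have hpb : ∀ z : V n, ‖z‖ ≤ R → ‖ev p z‖ ≤ M + ε := by
    intro z hz
    have h1 := (hs z).summable.sum_add_tsum_compl (s := s)
    rw [(hs z).tsum_eq] at h1
    have h2 : ev p z = h z -
        ∑' α : {x // x ∉ s}, MvPowerSeries.coeff α.1 v * ∏ j, z j ^ α.1 j := by
      rw [hpe]
      exact eq_sub_of_add_eq h1
    rw [h2]
    refine (norm_sub_le _ _).trans (add_le_add (hM z hz) ?_)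
    have h3 : Summable (fun α : {x // x ∉ s} => ‖MvPowerSeries.coeff α.1 v‖ * R ^ α.1.degree) :=
      hsum.subtype _
    exact (tsum_of_norm_bounded h3.hasSum (fun α => hterm z hz α.1)).trans hsε
  have := cauchy_poly n p R (M + ε) hR hpb β
  rwa [hpc] at this

end Pool.Agent.H28.FK
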