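import Pool.Agent.H57.BJ.Defs

/-! # Fock solutions for MP_fbd3e7_an: definitions

`L n` is the space `ℓ²` on the multi-indices; the element `x` stands for the power series `ser x` with the
coefficients `x α / sqrt(α!)` and for the entire function `fn x`; `emb F` is the element of a
polynomial. -/

set_option autoImplicit false

open MvPolynomial Pool.Agent.H60
open scoped Topology ENNReal

noncomputable section

namespace Pool.Agent.H28.FK

variable {n : ℕ}

/-- the Fischer form `∑ α! F_α conj(G_α)` -/
def fis (F G : MvPolynomial (Fin n) ℂ) : ℂ := Bp (G : MvPowerSeries (Fin n) ℂ) F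

/-- the square of the Fischer norm -/
def fn2 (F : MvPolynomial (Fin n) ℂ) : ℝ := ∑ α ∈ F.support, (fac α : ℝ) * ‖F.coeff α‖ ^ 2

/-- the Hilbert space `ℓ²` on the multi-indices -/
abbrev L (n : ℕ) := lp (fun _ : Fin n →₀ ℕ => ℂ) 2

/-- the power series of `x` -/
def ser (x : L n) : MvPowerSeries (Fin n) ℂ := fun α => x α / (Real.sqrt (fac α) : ℂ)

/-- the entire function of `x` -/
def fn (x : L n) (z : V n) : ℂ := ∑' α, MvPowerSeries.coeff α (ser x) * ∏ j, z j ^ α j

theorem emb_mem (F : MvPolynomial (Fin n) ℂ) :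
    Memℓp (fun α : Fin n →₀ ℕ => (Real.sqrt (fac α) : ℂ) * F.coeff α) 2 := by
  refine memℓp_gen ?_
  refine summable_of_finite_support (F.support.finite_toSet.subset fun α hα => ?_)
  rw [Function.mem_support] at hα
  rw [Finset.mem_coe, mem_support_iff]
  intro h0
  apply hα
  rw [h0, mul_zero, norm_zero]
  simp

/-- the element of a polynomial -/
def emb (F : MvPolynomial (Fin n) ℂ) : L n :=
  ⟨fun α => (Real.sqrt (fac α) : ℂ) * F.coeff α, emb_mem F⟩

end Pool.Agent.H28.FK
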