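import Pool.Agent.H28.FK.Riesz

/-! # [H28 FK EQU] The equation

* `kap_sum`: `‖emb (P z^α)‖ ≤ ∑_γ |P_γ| sqrt((α+γ)!)` and `(α+γ)! ≤ 2^(|α|+|γ|) α! γ!` (`fac_add_le`), so
  `‖(conj z^α / α!) emb (P z^α)‖ ≤ C (sqrt 2 R)^|α| / sqrt(α!)` for `R ≥ |z_j|`: summable by `summable_sqrt`; `L n` is complete, so the family
  is summable. Here `z^α` is `monomial α 1`.
* `equ`. Let `κ = ∑'_α (conj z^α / α!) • emb (P * monomial α 1)` for fixed `z`. For every polynomial `R`:
  `⟪κ, emb R⟫ = ∑_α (z^α / α!) ⟪emb (P z^α), emb R⟫ = ∑_α (z^α / α!) fis R (P z^α) = ∑_α (z^α / α!) fis (Dop P R) (z^α) = ∑_α z^α (Dop P R)_α = ev (Dop P R) z`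
  (`inner_emb_emb`, `fis_Dop`, `Bp_eq_tsum`/`Bp_monomial`-type computation: `fis W (monomial α 1) = α! W_α`), a finite sum.
  And `⟪u, κ⟫ = ∑_α (conj z^α / α!) ⟪u, emb (P z^α)⟫ = ∑_α conj(z)^α a^α / α! = exp (∑ conj(z_j) a_j)` (`hasSum_expo`). (Use `HasSum.mapL` for the
  continuous linear maps `innerSL`.)
  By `Tf_ev`, `Tf P (ev (G k)) z = ev (TP P (G k)) z = ev (Dop P (P * G k)) z = ⟪κ, emb (P * G k)⟫ → ⟪κ, u⟫ = conj ⟪u, κ⟫ = exp (∑ z_j conj(a_j))`.
  On the other hand `Tf P (ev (G k)) z → Tf P (fn v) z`: `Tf_sub`, `Tf_bound` with `R = ‖z‖` applied to `fn v - ev (G k)`, which tends to zero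
  uniformly on balls by `fn_sub`, `fn_emb`, `fn_bd` (`‖w‖ ≤ R'` in the sup norm gives `Nn w ≤ n R'^2`). Uniqueness of limits. -/

set_option autoImplicit false

open MvPolynomial Pool.Agent.H60
open scoped Topology ENNReal

noncomputable section

namespace Pool.Agent.H28.FK

variable {n : ℕ}

private theorem fis_mono' (A : MvPolynomial (Fin n) ℂ) (α : Fin n →₀ ℕ) :
    fis A (monomial α (1 : ℂ)) = (fac α : ℂ) * A.coeff α := by
  rw [← fis_conj]
  have h : fis (monomial α (1 : ℂ)) A = (1 : ℂ) * ((fac α : ℂ) * (starRingEnd ℂ) (A.coeff α)) := by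
    unfold fis
    rw [Bp_monomial, MvPolynomial.coeff_coe]
  rw [h, one_mul, map_mul, Complex.conj_conj, Complex.conj_natCast]

private theorem fis_conj' (F G : MvPolynomial (Fin n) ℂ) :
    fis F G = (starRingEnd ℂ) (fis G F) := (fis_conj G F).symm

private theorem norm_emb_monomial (α : Fin n →₀ ℕ) (b : ℂ) :
    ‖emb (monomial α b)‖ = ‖b‖ * Real.sqrt (fac α) := by
  have h1 : ‖emb (monomial α b)‖ ^ 2 = (‖b‖ * Real.sqrt (fac α)) ^ 2 := by
    rw [norm_emb, mul_pow, Real.sq_sqrt (by positivity)]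
    have h2 : ((fn2 (monomial α b) : ℝ) : ℂ) = ((‖b‖ ^ 2 * (fac α : ℝ) : ℝ) : ℂ) := by
      rw [← fis_self]
      unfold fis
      rw [Bp_monomial, MvPolynomial.coeff_coe, coeff_monomial, if_pos rfl]
      have h3 := Complex.mul_conj b
      rw [Complex.normSq_eq_norm_sq] at h3
      push_cast at h3 ⊢
      linear_combination (fac α : ℂ) * h3
    exact_mod_cast h2
  exact (pow_left_inj₀ (norm_nonneg _) (by positivity) two_ne_zero).1 h1

private theorem norm_emb_P (P : MvPolynomial (Fin n) ℂ) : ∃ C : ℝ, 0 ≤ C ∧ ∀ α : Fin n →₀ ℕ,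
    ‖emb (P * monomial α (1 : ℂ))‖ ≤ C * (Real.sqrt 2 ^ α.degree * Real.sqrt (fac α)) := by
  refine ⟨∑ γ ∈ P.support, ‖P.coeff γ‖ * Real.sqrt (2 ^ γ.degree * fac γ),
    Finset.sum_nonneg (fun γ _ => by positivity), fun α => ?_⟩
  have h1 : emb (P * monomial α (1 : ℂ)) =
      ∑ γ ∈ P.support, emb (monomial (γ + α) (P.coeff γ)) := by
    have h2 : P * monomial α (1 : ℂ) = ∑ γ ∈ P.support, monomial (γ + α) (P.coeff γ) := by
      conv_lhs => rw [P.as_sum]
      rw [Finset.sum_mul]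
      exact Finset.sum_congr rfl (fun γ _ => by rw [monomial_mul, mul_one])
    rw [h2]
    generalize P.support = s
    classical
    induction s using Finset.induction_on with
    | empty =>
      rw [Finset.sum_empty, Finset.sum_empty]
      have := emb_sub (0 : MvPolynomial (Fin n) ℂ) 0
      rwa [sub_self, sub_self] at this
    | insert a s ha ih => rw [Finset.sum_insert ha, Finset.sum_insert ha, emb_add, ih]
  rw [h1, Finset.sum_mul]
  refine (norm_sum_le _ _).trans (Finset.sum_le_sum (fun γ _ => ?_))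
  rw [norm_emb_monomial, mul_assoc]
  refine mul_le_mul_of_nonneg_left ?_ (norm_nonneg _)
  have h3 : ((fac (γ + α) : ℕ) : ℝ) ≤ (2 ^ γ.degree * fac γ) * (2 ^ α.degree * fac α) := by
    have h4 : ((fac (γ + α) : ℕ) : ℝ) ≤ 2 ^ (γ.degree + α.degree) * fac γ * fac α := by
      exact_mod_cast fac_add_le γ α
    rw [pow_add] at h4
    linarith
  have h5 : Real.sqrt 2 ^ α.degree * Real.sqrt (fac α) = Real.sqrt (2 ^ α.degree * fac α) := by
    rw [Real.sqrt_mul (by positivity)]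
    congr 1
    have h6 : (2 : ℝ) ^ α.degree = (Real.sqrt 2 ^ α.degree) ^ 2 := by
      rw [← pow_mul, mul_comm, pow_mul, Real.sq_sqrt (by norm_num)]
    rw [h6, Real.sqrt_sq (by positivity)]
  rw [h5, ← Real.sqrt_mul (by positivity)]
  exact Real.sqrt_le_sqrt h3

theorem kap_sum (P : MvPolynomial (Fin n) ℂ) (z : V n) :
    Summable (fun α : Fin n →₀ ℕ => ((∏ j, (starRingEnd ℂ) (z j) ^ α j) / (fac α : ℂ)) •
      emb (P * monomial α (1 : ℂ))) := by
  obtain ⟨C, hC, hb⟩ := norm_emb_P P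
  have hs := (summable_sqrt (n := n) (‖z‖ * Real.sqrt 2) (by positivity)).mul_left C
  refine Summable.of_norm_bounded hs (fun α => ?_)
  rw [norm_smul, norm_div, Complex.norm_natCast, norm_prod]
  have h1 : ∏ j, ‖(starRingEnd ℂ) (z j) ^ α j‖ ≤ ‖z‖ ^ α.degree := by
    rw [Finsupp.degree_eq_sum, ← Finset.prod_pow_eq_pow_sum]
    refine Finset.prod_le_prod (fun j _ => norm_nonneg _) (fun j _ => ?_)
    rw [norm_pow, RCLike.norm_conj]
    exact pow_le_pow_left₀ (norm_nonneg _) (norm_le_pi_norm z j) _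
  have hf : (0 : ℝ) < fac α := by exact_mod_cast fac_pos α
  have hsf : 0 < Real.sqrt (fac α) := Real.sqrt_pos.2 hf
  calc (∏ j, ‖(starRingEnd ℂ) (z j) ^ α j‖) / (fac α : ℝ) * ‖emb (P * monomial α (1 : ℂ))‖
      ≤ ‖z‖ ^ α.degree / (fac α : ℝ) * (C * (Real.sqrt 2 ^ α.degree * Real.sqrt (fac α))) := by
        refine mul_le_mul (div_le_div_of_nonneg_right h1 hf.le) (hb α) (norm_nonneg _)
          (by positivity)
    _ = C * ((‖z‖ * Real.sqrt 2) ^ α.degree / Real.sqrt (fac α)) := by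
        have h2 : (fac α : ℝ) = Real.sqrt (fac α) * Real.sqrt (fac α) :=
          (Real.mul_self_sqrt hf.le).symm
        rw [mul_pow]
        rw [h2]
        rw [Real.sqrt_mul_self hsf.le]
        field_simp

private theorem kap_left (P R : MvPolynomial (Fin n) ℂ) (z : V n) (κ : L n)
    (hκ : HasSum (fun α : Fin n →₀ ℕ => ((∏ j, (starRingEnd ℂ) (z j) ^ α j) / (fac α : ℂ)) •
      emb (P * monomial α (1 : ℂ))) κ) : inner ℂ (emb R) κ = (starRingEnd ℂ) (ev (Dop P R) z) := by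
  have h1 := hκ.mapL (innerSL ℂ (emb R))
  have h2 : ∀ α : Fin n →₀ ℕ, (innerSL ℂ (emb R))
      (((∏ j, (starRingEnd ℂ) (z j) ^ α j) / (fac α : ℂ)) • emb (P * monomial α (1 : ℂ))) =
      (starRingEnd ℂ) ((∏ j, z j ^ α j) * (Dop P R).coeff α) := by
    intro α
    have hf : (fac α : ℂ) ≠ 0 := by exact_mod_cast (fac_pos α).ne'
    rw [innerSL_apply_apply, inner_smul_right, inner_emb_emb, fis_conj', ← fis_Dop, fis_mono',
      map_mul, map_mul, map_prod, Complex.conj_natCast]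
    simp_rw [map_pow]
    field_simp
  have h3 : HasSum (fun α : Fin n →₀ ℕ => (starRingEnd ℂ) ((∏ j, z j ^ α j) * (Dop P R).coeff α))
      (inner ℂ (emb R) κ) := by
    refine h1.congr_fun ?_
    intro α
    exact (h2 α).symm
  have h4 : HasSum (fun α : Fin n →₀ ℕ => (starRingEnd ℂ) ((∏ j, z j ^ α j) * (Dop P R).coeff α))
      ((starRingEnd ℂ) (ev (Dop P R) z)) := by
    have h5 : (starRingEnd ℂ) (ev (Dop P R) z) = ∑ α ∈ (Dop P R).support,
        (starRingEnd ℂ) ((∏ j, z j ^ α j) * (Dop P R).coeff α) := by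
      unfold ev
      rw [eval_eq', map_sum]
      exact Finset.sum_congr rfl (fun α _ => by rw [mul_comm])
    rw [h5]
    refine hasSum_sum_of_ne_finset_zero (fun α hα => ?_)
    rw [notMem_support_iff.mp hα, mul_zero, map_zero]
  exact h3.unique h4

private theorem kap_right (P : MvPolynomial (Fin n) ℂ) (a z : V n) (u κ : L n)
    (hκ : HasSum (fun α : Fin n →₀ ℕ => ((∏ j, (starRingEnd ℂ) (z j) ^ α j) / (fac α : ℂ)) •
      emb (P * monomial α (1 : ℂ))) κ)
    (h : ∀ F : MvPolynomial (Fin n) ℂ, inner ℂ u (emb (P * F)) = ev F a) :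
    inner ℂ u κ = Complex.exp (∑ j, (starRingEnd ℂ) (z j) * a j) := by
  have h1 := hκ.mapL (innerSL ℂ u)
  have h2 : ∀ α : Fin n →₀ ℕ, (innerSL ℂ u)
      (((∏ j, (starRingEnd ℂ) (z j) ^ α j) / (fac α : ℂ)) • emb (P * monomial α (1 : ℂ))) =
      (∏ j, ((starRingEnd ℂ) (z j) * a j) ^ α j) / (fac α : ℂ) := by
    intro α
    rw [innerSL_apply_apply, inner_smul_right, h]
    have h5 : ev (monomial α (1 : ℂ)) a = ∏ j, a j ^ α j := by
      unfold ev
      rw [eval_monomial, one_mul, Finsupp.prod_fintype _ _ (fun i => pow_zero _)]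
    rw [h5, div_mul_eq_mul_div, ← Finset.prod_mul_distrib]
    congr 1
    exact Finset.prod_congr rfl (fun j _ => by rw [mul_pow])
  have h3 : HasSum (fun α : Fin n →₀ ℕ => (∏ j, ((starRingEnd ℂ) (z j) * a j) ^ α j) / (fac α : ℂ))
      (inner ℂ u κ) := by
    refine h1.congr_fun ?_
    intro α
    exact (h2 α).symm
  exact h3.unique (hasSum_expo (fun j => (starRingEnd ℂ) (z j) * a j))

theorem equ (P : MvPolynomial (Fin n) ℂ) (a : V n) (u v : L n) (G : ℕ → MvPolynomial (Fin n) ℂ)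
    (hv : Filter.Tendsto (fun k => emb (G k)) Filter.atTop (𝓝 v))
    (hu : Filter.Tendsto (fun k => emb (P * G k)) Filter.atTop (𝓝 u))
    (h : ∀ F : MvPolynomial (Fin n) ℂ, inner ℂ u (emb (P * F)) = ev F a) (z : V n) :
    Tf P (fn v) z = Complex.exp (∑ j, z j * (starRingEnd ℂ) (a j)) := by
  obtain ⟨κ, hκ⟩ := kap_sum P z
  -- the limit on one side
  have t1 : Filter.Tendsto (fun k => inner ℂ (emb (P * G k)) κ) Filter.atTop
      (𝓝 (inner ℂ u κ)) := hu.inner tendsto_const_nhds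
  have t2 : Filter.Tendsto (fun k => (starRingEnd ℂ) (inner ℂ (emb (P * G k)) κ)) Filter.atTop
      (𝓝 ((starRingEnd ℂ) (inner ℂ u κ))) := (Complex.continuous_conj.tendsto _).comp t1
  have e1 : ∀ k, (starRingEnd ℂ) (inner ℂ (emb (P * G k)) κ) = Tf P (ev (G k)) z := by
    intro k
    rw [kap_left P (P * G k) z κ hκ, Complex.conj_conj, Tf_ev]
    rfl
  have e2 : (starRingEnd ℂ) (inner ℂ u κ) = Complex.exp (∑ j, z j * (starRingEnd ℂ) (a j)) := by
    rw [kap_right P a z u κ hκ h, ← Complex.exp_conj, map_sum]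
    congr 1
    refine Finset.sum_congr rfl (fun j _ => ?_)
    rw [map_mul, Complex.conj_conj]
  simp_rw [e1] at t2
  rw [e2] at t2
  -- the limit on the other side
  obtain ⟨C, hC, hTf⟩ := Tf_bound P ‖z‖
  have hd : Differentiable ℂ (fn v) := fn_entire v G hv
  set R' : ℝ := ‖z‖ + P.totalDegree with hR'
  have hN : ∀ (w : V n), w ∈ Metric.closedBall (0 : V n) R' →
      Real.exp (Nn w / 2) ≤ Real.exp (n * R' ^ 2 / 2) := by
    intro w hw
    rw [mem_closedBall_zero_iff] at hw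
    refine Real.exp_le_exp.2 ?_
    have h5 : Nn w ≤ n * R' ^ 2 := by
      unfold Nn
      calc ∑ j, ‖w j‖ ^ 2 ≤ ∑ _j : Fin n, R' ^ 2 := by
            refine Finset.sum_le_sum (fun j _ => ?_)
            exact pow_le_pow_left₀ (norm_nonneg _) ((norm_le_pi_norm w j).trans hw) 2
        _ = n * R' ^ 2 := by rw [Finset.sum_const, Finset.card_univ, Fintype.card_fin, nsmul_eq_mul]
    linarith
  have t3 : Filter.Tendsto (fun k => Tf P (ev (G k)) z) Filter.atTop (𝓝 (Tf P (fn v) z)) := by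
    rw [tendsto_iff_norm_sub_tendsto_zero]
    have hv' := hv
    rw [tendsto_iff_norm_sub_tendsto_zero] at hv'
    have h6 : Filter.Tendsto (fun k => C * (‖emb (G k) - v‖ * Real.exp (n * R' ^ 2 / 2)))
        Filter.atTop (𝓝 0) := by
      have := (hv'.mul_const (Real.exp (n * R' ^ 2 / 2))).const_mul C
      rwa [zero_mul, mul_zero] at this
    refine squeeze_zero (fun k => norm_nonneg _) (fun k => ?_) h6
    rw [← Tf_sub P (differentiable_ev (G k)) hd z]
    refine hTf (fun w => ev (G k) w - fn v w) ((differentiable_ev (G k)).sub hd)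
      (‖emb (G k) - v‖ * Real.exp (n * R' ^ 2 / 2)) (by positivity) (fun w hw => ?_) z
      (by rw [mem_closedBall_zero_iff])
    rw [← fn_emb, ← fn_sub]
    exact (fn_bd _ w).trans (mul_le_mul_of_nonneg_left (hN w hw) (norm_nonneg _))
  exact tendsto_nhds_unique t3 t2

end Pool.Agent.H28.FK
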