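import Pool.Agent.H28.FK.Def

/-! # [H28 FK EXPO] Exponential series in several variables

* `hasSum_expo`: `∑_α ∏_j w_j^(α_j) / α! = exp (∑ w_j)`, sum over the multi-indices. Pass from `Fin n →₀ ℕ` to `Fin n → ℕ`
  (`Finsupp.equivFunOnFinite`, see `summable_exp` in `H60.Fock2`), then induction on `n` with `Fin.consEquiv` as in `summable_pi_prod`:
  the product of two absolutely convergent sums (`HasSum.mul` with `Summable.mul_of_nonneg` / `summable_mul_of_summable_norm`),
  `NormedSpace.expSeries_div_hasSum_exp` / `Complex.exp` series in one variable.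
* `hasSum_expo_real`: take real `w` (or the same proof).
* `summable_sqrt`: `R^k / sqrt(k!) ≤ ((2 R^2)^k / k! + (1/2)^k) / 2` (from `2ab ≤ a^2 + b^2` with `a = (sqrt 2 R)^k / sqrt(k!)`,
  `b = (sqrt 2)^(-k)`), so summable in one variable; then `summable_pi_prod` (`H60.Fock2`) as in `summable_exp`:
  `∏_j R^(α_j) / sqrt(α_j!) = R^|α| / sqrt(α!)`. -/

set_option autoImplicit false

open MvPolynomial Pool.Agent.H60
open scoped Topology ENNReal

noncomputable section

namespace Pool.Agent.H28.FK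

variable {n : ℕ}

private theorem hasSum_pi (n : ℕ) : ∀ (f : Fin n → ℕ → ℂ) (s : Fin n → ℂ),
    (∀ j, HasSum (f j) (s j)) → (∀ j, Summable (fun k => ‖f j k‖)) →
    HasSum (fun α : Fin n → ℕ => ∏ j, f j (α j)) (∏ j, s j) ∧
      Summable (fun α : Fin n → ℕ => ‖∏ j, f j (α j)‖) := by
  induction n with
  | zero =>
    intro f s _ _
    refine ⟨?_, Summable.of_finite⟩
    have h1 : (fun α : Fin 0 → ℕ => ∏ j, f j (α j)) = fun _ => (1 : ℂ) := by
      funext α
      exact Finset.prod_of_isEmpty _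
    have h2 : (∏ j, s j) = 1 := Finset.prod_of_isEmpty _
    rw [h1, h2]
    have h3 := hasSum_single (f := fun _ : Fin 0 → ℕ => (1 : ℂ)) (fun j => j.elim0)
      (fun b' hb' => absurd (Subsingleton.elim _ _) hb')
    exact h3
  | succ n ih =>
    intro f s hf hs
    obtain ⟨h1, h2⟩ := ih (fun j => f j.succ) (fun j => s j.succ) (fun j => hf j.succ)
      (fun j => hs j.succ)
    set g : (Fin n → ℕ) → ℂ := fun α => ∏ j, f (Fin.succ j) (α j) with hg
    have h3 : Summable (fun x : ℕ × (Fin n → ℕ) => ‖f 0 x.1 * g x.2‖) := by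
      have h2' : Summable (fun α => ‖g α‖) := h2
      exact Summable.mul_norm (f := f 0) (g := g) (hs 0) h2'
    have h4 : HasSum (fun x : ℕ × (Fin n → ℕ) => f 0 x.1 * g x.2) (s 0 * ∏ j, s (Fin.succ j)) := by
      have h1' : HasSum g (∏ j, s (Fin.succ j)) := h1
      exact HasSum.mul (hf 0) h1' h3.of_norm
    have e : ∀ x : ℕ × (Fin n → ℕ), ∏ j, f j ((Fin.consEquiv (fun _ : Fin (n + 1) => ℕ)) x j) =
        f 0 x.1 * g x.2 := by
      intro x
      rw [Fin.prod_univ_succ, hg]
      simp [Fin.consEquiv]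
    constructor
    · rw [← (Fin.consEquiv (fun _ : Fin (n + 1) => ℕ)).hasSum_iff, Fin.prod_univ_succ]
      exact h4.congr_fun e
    · rw [← (Fin.consEquiv (fun _ : Fin (n + 1) => ℕ)).summable_iff]
      refine h3.congr (fun x => ?_)
      rw [← e x]
      rfl

theorem hasSum_expo (w : V n) :
    HasSum (fun α : Fin n →₀ ℕ => (∏ j, w j ^ α j) / (fac α : ℂ)) (Complex.exp (∑ j, w j)) := by
  have h1 := (hasSum_pi n (fun j k => w j ^ k / (k.factorial : ℂ)) (fun j => Complex.exp (w j))
    (fun j => by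
      rw [Complex.exp_eq_exp_ℂ]
      exact NormedSpace.expSeries_div_hasSum_exp (w j))
    (fun j => by
      refine (Real.summable_pow_div_factorial ‖w j‖).congr (fun k => ?_)
      rw [norm_div, norm_pow, Complex.norm_natCast])).1
  rw [← Complex.exp_sum] at h1
  rw [← (Finsupp.equivFunOnFinite (α := Fin n) (M := ℕ)).hasSum_iff] at h1
  refine h1.congr_fun (fun α => ?_)
  simp only [Function.comp, Finsupp.equivFunOnFinite_apply, fac]
  rw [Finset.prod_div_distrib]
  push_cast
  rfl

theorem hasSum_expo_real (w : Fin n → ℝ) :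
    HasSum (fun α : Fin n →₀ ℕ => (∏ j, w j ^ α j) / (fac α : ℝ)) (Real.exp (∑ j, w j)) := by
  have h := hasSum_expo (n := n) (fun j => (w j : ℂ))
  rw [← Complex.hasSum_ofReal]
  push_cast
  exact h

theorem summable_sqrt (R : ℝ) (hR : 0 ≤ R) :
    Summable (fun α : Fin n →₀ ℕ => R ^ α.degree / Real.sqrt (fac α)) := by
  have h0 : ∀ k : ℕ, 0 ≤ R ^ k / Real.sqrt (k.factorial : ℝ) := fun k => by positivity
  have hs : Summable (fun k : ℕ => R ^ k / Real.sqrt (k.factorial : ℝ)) := by
    have h1 := (Real.summable_pow_div_factorial (2 * R ^ 2)).add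
      (summable_geometric_of_lt_one (r := (1 : ℝ) / 2) (by norm_num) (by norm_num))
    refine Summable.of_nonneg_of_le h0 (fun k => ?_) h1
    have hk : (0 : ℝ) < k.factorial := by exact_mod_cast Nat.factorial_pos k
    have hA : 0 ≤ (2 * R ^ 2) ^ k / (k.factorial : ℝ) := by positivity
    have hB : (0 : ℝ) ≤ (1 / 2) ^ k := by positivity
    have hx : (R ^ k / Real.sqrt (k.factorial : ℝ)) ^ 2 =
        ((2 * R ^ 2) ^ k / (k.factorial : ℝ)) * (1 / 2) ^ k := by
      rw [div_pow, Real.sq_sqrt hk.le, mul_pow, one_div, inv_pow, ← pow_mul, ← pow_mul,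
        mul_comm k 2]
      have : (2 : ℝ) ^ k ≠ 0 := by positivity
      field_simp
    refine le_of_sq_le_sq ?_ (by positivity)
    rw [hx]
    nlinarith [sq_nonneg ((2 * R ^ 2) ^ k / (k.factorial : ℝ) - (1 / 2) ^ k)]
  have h1 := summable_pi_prod (fun k => R ^ k / Real.sqrt (k.factorial : ℝ)) hs h0 n
  rw [← (Finsupp.equivFunOnFinite (α := Fin n) (M := ℕ)).summable_iff] at h1
  refine h1.congr fun α => ?_
  simp only [Function.comp, Finsupp.equivFunOnFinite_apply, fac]
  rw [Finset.prod_div_distrib, Finset.prod_pow_eq_pow_sum, Finsupp.degree_eq_sum]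
  congr 1
  push_cast
  rw [Real.sqrt_prod _ (fun i _ => by positivity)]

end Pool.Agent.H28.FK
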