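import Pool.Agent.H28.FK.Equ

/-! # Fock solutions: assembly -/

set_option autoImplicit false

open MvPolynomial Pool.Agent.H60
open scoped Topology ENNReal

noncomputable section

namespace Pool.Agent.H28.FK

variable {n : ℕ}

theorem fock_sol {P : MvPolynomial (Fin n) ℂ} (hP : P ≠ 0) (ρ : ℝ) :
    ∃ C : ℝ, 0 < C ∧ ∀ a : V n, ‖a‖ ≤ ρ →
      ∃ (v : MvPowerSeries (Fin n) ℂ) (h : V n → ℂ), Differentiable ℂ h ∧
        (∀ z, HasSum (fun α : Fin n →₀ ℕ => MvPowerSeries.coeff α v * ∏ j, z j ^ α j) (h z)) ∧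
        (∀ F : MvPolynomial (Fin n) ℂ, Bp v (TP P F) = ev F a) ∧
        (∀ z, Tf P h z = Complex.exp (∑ j, z j * (starRingEnd ℂ) (a j))) ∧
        (∀ z, ‖ev P z * h z‖ ≤ C * Real.exp (Nn z / 2)) := by
  obtain ⟨C, hC, H⟩ := riesz hP
  refine ⟨C * Real.exp (n * ρ ^ 2 / 2), by positivity, fun a ha => ?_⟩
  obtain ⟨u, v, G, hv, hu, h1, h2⟩ := H a
  obtain ⟨h3, h4⟩ := mul_lim P u v G hv hu
  refine ⟨ser v, fn v, fn_entire v G hv, fn_hasSum v, ?_, equ P a u v G hv hu h1, ?_⟩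
  · intro F
    unfold TP
    rw [Bp_Dop, ← h3, ← inner_emb, h1]
  · intro z
    rw [← h4]
    refine (fn_bd u z).trans (mul_le_mul_of_nonneg_right (h2.trans ?_) (Real.exp_pos _).le)
    refine mul_le_mul_of_nonneg_left (Real.exp_le_exp.2 ?_) hC.le
    have h5 : Nn a ≤ n * ρ ^ 2 := by
      unfold Nn
      calc ∑ j, ‖a j‖ ^ 2 ≤ ∑ _j : Fin n, ρ ^ 2 := by
            refine Finset.sum_le_sum (fun j _ => ?_)
            exact pow_le_pow_left₀ (norm_nonneg _) ((norm_le_pi_norm a j).trans ha) 2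
        _ = n * ρ ^ 2 := by rw [Finset.sum_const, Finset.card_univ, Fintype.card_fin, nsmul_eq_mul]
    linarith

end Pool.Agent.H28.FK
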