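import Pool.Agent.H28.FK.Def

/-! # Division by a polynomial: `|h(z)| ≤ C max |P h|` on the polydisc of radius one -/

set_option autoImplicit false

open MvPolynomial Pool.Agent.H60
open scoped Topology ENNReal

noncomputable section

namespace Pool.Agent.H28.FK

variable {n : ℕ}

/-- the polynomial `∑ conj(p_k) τ^(D - k)` -/
private def rv (D : ℕ) (p : Polynomial ℂ) (τ : ℂ) : ℂ :=
  ∑ k ∈ Finset.range (D + 1), (starRingEnd ℂ) (p.coeff k) * τ ^ (D - k)

private theorem rv_norm (D : ℕ) (p : Polynomial ℂ) (hp : p.natDegree ≤ D) (τ : ℂ) (hτ : ‖τ‖ = 1) :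
    ‖rv D p τ‖ = ‖p.eval τ‖ := by
  have h1 : rv D p τ = τ ^ D * (starRingEnd ℂ) (p.eval τ) := by
    rw [Polynomial.eval_eq_sum_range' (Nat.lt_succ_of_le hp), map_sum, Finset.mul_sum]
    unfold rv
    refine Finset.sum_congr rfl (fun k hk => ?_)
    rw [Finset.mem_range] at hk
    rw [map_mul, map_pow]
    have h2 : τ * (starRingEnd ℂ) τ = 1 := by
      rw [Complex.mul_conj, Complex.normSq_eq_norm_sq, hτ]
      norm_num
    have h3 : τ ^ D = τ ^ (D - k) * τ ^ k := by
      rw [← pow_add]
      congr 1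
      omega
    rw [h3]
    have h4 : τ ^ k * (starRingEnd ℂ) τ ^ k = 1 := by rw [← mul_pow, h2, one_pow]
    linear_combination (-(starRingEnd ℂ) (p.coeff k) * τ ^ (D - k)) * h4
  rw [h1, norm_mul, norm_pow, hτ, one_pow, one_mul, RCLike.norm_conj]

private theorem rv_zero (D : ℕ) (p : Polynomial ℂ) : rv D p 0 = (starRingEnd ℂ) (p.coeff D) := by
  unfold rv
  rw [Finset.sum_range_succ, Nat.sub_self, pow_zero, mul_one]
  have h : ∀ k ∈ Finset.range D, (starRingEnd ℂ) (p.coeff k) * (0 : ℂ) ^ (D - k) = 0 := by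
    intro k hk
    rw [Finset.mem_range] at hk
    rw [zero_pow (by omega), mul_zero]
  rw [Finset.sum_eq_zero h, zero_add]

private theorem mal1 (D : ℕ) (p : Polynomial ℂ) (hp : p.natDegree ≤ D) (f : ℂ → ℂ)
    (hf : Differentiable ℂ f) (M : ℝ) (hM : ∀ τ : ℂ, ‖τ‖ = 1 → ‖p.eval τ * f τ‖ ≤ M) :
    ‖p.coeff D‖ * ‖f 0‖ ≤ M := by
  have hd : Differentiable ℂ (fun τ => rv D p τ * f τ) := by
    refine Differentiable.mul ?_ hf
    unfold rv
    fun_prop
  have h1 := Complex.norm_le_of_forall_mem_frontier_norm_le (U := Metric.ball (0 : ℂ) 1)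
    Metric.isBounded_ball hd.diffContOnCl (C := M) (fun z hz => by
      rw [frontier_ball _ one_ne_zero, mem_sphere_zero_iff_norm] at hz
      rw [norm_mul, rv_norm D p hp z hz, ← norm_mul]
      exact hM z hz) (z := 0) (subset_closure (Metric.mem_ball_self one_pos))
  rw [rv_zero, norm_mul, RCLike.norm_conj] at h1
  exact h1

/-- Division by a polynomial in one variable, with an arbitrary centre. -/
private theorem mal2 (D : ℕ) (p : Polynomial ℂ) (hp : p.natDegree ≤ D) (c : ℂ) (f : ℂ → ℂ)
    (hf : Differentiable ℂ f) (M : ℝ)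
    (hM : ∀ τ : ℂ, ‖τ‖ = 1 → ‖p.eval (c + τ) * f (c + τ)‖ ≤ M) :
    ‖p.coeff D‖ * ‖f c‖ ≤ M := by
  have h1 := mal1 D (Polynomial.taylor c p) (by rw [Polynomial.natDegree_taylor]; exact hp)
    (fun τ => f (c + τ)) (hf.comp (by fun_prop)) M (fun τ hτ => by
      rw [Polynomial.taylor_eval, add_comm τ c]
      exact hM τ hτ)
  simp only [add_zero] at h1
  have h2 : (Polynomial.taylor c p).coeff D = p.coeff D := by
    rcases lt_or_eq_of_le hp with h | h
    · rw [Polynomial.coeff_eq_zero_of_natDegree_lt h,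
        Polynomial.coeff_eq_zero_of_natDegree_lt (by rw [Polynomial.natDegree_taylor]; exact h)]
    · have := Polynomial.coeff_taylor_natDegree (r := c) (f := p)
      rw [h] at this
      rw [this, Polynomial.leadingCoeff, h]
  rwa [h2] at h1

theorem malgrange : ∀ (n : ℕ) (P : MvPolynomial (Fin n) ℂ), P ≠ 0 → ∃ c : ℝ, 0 < c ∧
    ∀ h : V n → ℂ, Differentiable ℂ h → ∀ (z : V n) (M : ℝ),
      (∀ w : V n, ‖w - z‖ ≤ 1 → ‖ev P w * h w‖ ≤ M) → c * ‖h z‖ ≤ M := by
  intro n
  induction n with
  | zero =>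
    intro P hP
    have hC : P = C (P.coeff 0) := by
      ext m
      have hm : m = 0 := Subsingleton.elim _ _
      rw [hm, coeff_C, if_pos rfl]
    have h0 : P.coeff 0 ≠ 0 := by
      intro h
      apply hP
      rw [hC, h, C_0]
    refine ⟨‖P.coeff 0‖, norm_pos_iff.2 h0, fun h _ z M hM => ?_⟩
    have h1 := hM z (by rw [sub_self, norm_zero]; exact zero_le_one)
    have h2 : ev P z = P.coeff 0 := by
      unfold ev
      conv_lhs => rw [hC]
      rw [eval_C]
    rwa [norm_mul, h2] at h1
  | succ n ih =>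
    intro P hP
    set q := finSuccEquiv ℂ n P with hq
    have hq0 : q ≠ 0 := by
      rw [hq]
      exact (map_ne_zero_iff _ (finSuccEquiv ℂ n).injective).2 hP
    obtain ⟨c, hc, hih⟩ := ih q.leadingCoeff (Polynomial.leadingCoeff_ne_zero.2 hq0)
    refine ⟨c, hc, fun h hh z M hM => ?_⟩
    -- splitting of the coordinates
    have hz : z = Fin.cons (z 0) (Fin.tail z) := (Fin.cons_self_tail z).symm
    have hdiff1 : ∀ w : V n, Differentiable ℂ (fun τ : ℂ => h (Fin.cons τ w)) := by
      intro w
      refine hh.comp ?_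
      rw [differentiable_pi]
      intro i
      refine Fin.cases ?_ (fun j => ?_) i
      · simp only [Fin.cons_zero]
        fun_prop
      · simp only [Fin.cons_succ]
        fun_prop
    have hdiff2 : Differentiable ℂ (fun w : V n => h (Fin.cons (z 0) w)) := by
      refine hh.comp ?_
      rw [differentiable_pi]
      intro i
      refine Fin.cases ?_ (fun j => ?_) i
      · simp only [Fin.cons_zero]
        fun_prop
      · simp only [Fin.cons_succ]
        fun_prop
    have h1 := hih (fun w => h (Fin.cons (z 0) w)) hdiff2 (Fin.tail z) M (fun w hw => ?_)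
    · simp only [Fin.cons_self_tail] at h1
      exact h1
    · have h2 := mal2 q.natDegree (q.map (eval w)) Polynomial.natDegree_map_le (z 0)
        (fun τ => h (Fin.cons τ w)) (hdiff1 w) M (fun τ hτ => ?_)
      · rw [Polynomial.coeff_map] at h2
        rw [norm_mul]
        exact h2
      · have h3 := hM (Fin.cons (z 0 + τ) w) (by
          rw [pi_norm_le_iff_of_nonneg zero_le_one]
          intro i
          refine Fin.cases ?_ (fun j => ?_) i
          · simp only [Pi.sub_apply, Fin.cons_zero, add_sub_cancel_left]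
            exact hτ.le
          · simp only [Pi.sub_apply, Fin.cons_succ]
            exact (norm_le_pi_norm (w - Fin.tail z) j).trans hw)
        unfold ev at h3
        rw [eval_eq_eval_mv_eval'] at h3
        exact h3

end Pool.Agent.H28.FK
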