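import Pool.Agent.H28.FK.Space

/-! # [H28 FK RIESZ] The Riesz representation

* `mul_lim`: if `emb (G k) → v` and `emb (P * G k) → u` then `ser u = P * ser v` and `fn u z = ev P z * fn v z`. Coefficient of
  `β`: by `coeff_mul_series` (`H60.Fock2`) it is the finite sum `∑_γ P_γ sh(·) γ β`, and the coefficients converge (`ser_lim`,
  `ser_emb`, `coe_mul`); uniqueness of limits. Values: `fn (emb (P * G k)) z = ev P z * ev (G k) z` (`fn_emb`) and `fn` is continuous in
  `x` (`fn_sub`, `fn_bd`).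
* `riesz`: let `M` be the submodule `{emb (P * F)}` of `L n` (range of a linear map), `lam (emb (P * F)) = ev F a`: well defined (as `P ≠ 0`,
  `norm_emb`, `lower_bd`: if `emb (P F) = 0` then `fn2 F = 0`, `F = 0`) and bounded:
  `|ev F a| = |fn (emb F) a| ≤ ‖emb F‖ exp (Nn a / 2) ≤ c^(-1/2) exp (Nn a / 2) ‖emb (P F)‖`. Hahn-Banach/Riesz: extend to the
  closure of `M` by continuity, or: Riesz representation in the complete space `M.topologicalClosure` (a closed subspace of a
  Hilbert space is complete): `u ∈ closure of M` with `⟪u, emb (P F)⟫ = ev F a` and `‖u‖ ≤ c^(-1/2) exp (Nn a / 2)`. (One way: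
  `exists_extension_norm_eq` for the functional on `M`, `InnerProductSpace.toDual.symm` of the extension, and then the orthogonal
  projection onto `M.topologicalClosure`.) As `u` is in the closure, `u = lim emb (P * G k)`; by `lower_bd`
  `c ‖emb (G k) - emb (G l)‖^2 ≤ ‖emb (P G k) - emb (P G l)‖^2`, so `emb (G k)` is Cauchy with a limit `v`. -/

set_option autoImplicit false

open MvPolynomial Pool.Agent.H60
open scoped Topology ENNReal

noncomputable section

namespace Pool.Agent.H28.FK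

variable {n : ℕ}

private theorem fn_lim (x : L n) (G : ℕ → L n) (h : Filter.Tendsto G Filter.atTop (𝓝 x))
    (z : V n) : Filter.Tendsto (fun k => fn (G k) z) Filter.atTop (𝓝 (fn x z)) := by
  rw [tendsto_iff_norm_sub_tendsto_zero] at h ⊢
  have h3 : Filter.Tendsto (fun k => ‖G k - x‖ * Real.exp (Nn z / 2)) Filter.atTop (𝓝 0) := by
    have := h.mul_const (Real.exp (Nn z / 2))
    rwa [zero_mul] at this
  refine squeeze_zero (fun k => norm_nonneg _) (fun k => ?_) h3
  rw [← fn_sub]
  exact fn_bd _ z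

theorem mul_lim (P : MvPolynomial (Fin n) ℂ) (u v : L n) (G : ℕ → MvPolynomial (Fin n) ℂ)
    (hv : Filter.Tendsto (fun k => emb (G k)) Filter.atTop (𝓝 v))
    (hu : Filter.Tendsto (fun k => emb (P * G k)) Filter.atTop (𝓝 u)) :
    ser u = (P : MvPowerSeries (Fin n) ℂ) * ser v ∧ ∀ z, fn u z = ev P z * fn v z := by
  refine ⟨?_, fun z => ?_⟩
  · ext β
    rw [coeff_mul_series]
    have h1 := ser_lim u _ hu β
    have h2 : ∀ k, MvPowerSeries.coeff β (ser (emb (P * G k))) =
        ∑ γ ∈ P.support, P.coeff γ * sh (ser (emb (G k))) γ β := by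
      intro k
      rw [ser_emb, ser_emb, MvPolynomial.coe_mul, coeff_mul_series]
    simp_rw [h2] at h1
    have h3 : Filter.Tendsto (fun k => ∑ γ ∈ P.support, P.coeff γ * sh (ser (emb (G k))) γ β)
        Filter.atTop (𝓝 (∑ γ ∈ P.support, P.coeff γ * sh (ser v) γ β)) := by
      refine tendsto_finsetSum _ (fun γ _ => Filter.Tendsto.const_mul _ ?_)
      unfold sh
      split_ifs with h
      · exact ser_lim v _ hv (β - γ)
      · exact tendsto_const_nhds
    exact tendsto_nhds_unique h1 h3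
  · have h1 := fn_lim u _ hu z
    have h2 := (fn_lim v _ hv z).const_mul (ev P z)
    have h3 : ∀ k, fn (emb (P * G k)) z = ev P z * fn (emb (G k)) z := by
      intro k
      rw [fn_emb, fn_emb, ev_mul]
    simp_rw [h3] at h1
    exact tendsto_nhds_unique h1 h2

theorem riesz {P : MvPolynomial (Fin n) ℂ} (hP : P ≠ 0) :
    ∃ C : ℝ, 0 < C ∧ ∀ a : V n, ∃ (u v : L n) (G : ℕ → MvPolynomial (Fin n) ℂ),
      Filter.Tendsto (fun k => emb (G k)) Filter.atTop (𝓝 v) ∧
      Filter.Tendsto (fun k => emb (P * G k)) Filter.atTop (𝓝 u) ∧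
      (∀ F : MvPolynomial (Fin n) ℂ, inner ℂ u (emb (P * F)) = ev F a) ∧
      ‖u‖ ≤ C * Real.exp (Nn a / 2) := by
  obtain ⟨c, hc, hlow⟩ := lower_bd hP
  have hsc : 0 < Real.sqrt c := Real.sqrt_pos.2 hc
  have hest : ∀ F : MvPolynomial (Fin n) ℂ, ‖emb F‖ ≤ (Real.sqrt c)⁻¹ * ‖emb (P * F)‖ := by
    intro F
    have h1 := hlow F
    rw [← norm_emb, ← norm_emb] at h1
    have h2 : Real.sqrt c * ‖emb F‖ ≤ ‖emb (P * F)‖ := by
      refine le_of_sq_le_sq ?_ (norm_nonneg _)
      rw [mul_pow, Real.sq_sqrt hc.le]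
      exact h1
    rw [inv_mul_eq_div, le_div_iff₀ hsc]
    linarith
  refine ⟨(Real.sqrt c)⁻¹, by positivity, fun a => ?_⟩
  let e : MvPolynomial (Fin n) ℂ →ₗ[ℂ] L n :=
    { toFun := fun F => emb (P * F)
      map_add' := fun F G => by rw [mul_add, emb_add]
      map_smul' := fun r F => by rw [mul_smul_comm, emb_smul]; rfl }
  have he : ∀ F, e F = emb (P * F) := fun F => rfl
  have hinj : Function.Injective e := by
    rw [injective_iff_map_eq_zero]
    intro F hF
    have h1 := hest F
    rw [← he, hF, norm_zero, mul_zero] at h1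
    have h2 : ‖emb F‖ = 0 := le_antisymm h1 (norm_nonneg _)
    have h3 : emb F = 0 := norm_eq_zero.1 h2
    have h4 : (F : MvPowerSeries (Fin n) ℂ) = ((0 : MvPolynomial (Fin n) ℂ) : MvPowerSeries (Fin n) ℂ) := by
      rw [← ser_emb, h3]
      ext α
      show (0 : L n) α / _ = _
      simp
    exact MvPolynomial.coe_injective _ _ h4
  let evl : MvPolynomial (Fin n) ℂ →ₗ[ℂ] ℂ :=
    { toFun := fun F => ev F a
      map_add' := fun F G => by unfold ev; rw [map_add]
      map_smul' := fun r F => by unfold ev; rw [smul_eval]; rfl }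
  have hevl : ∀ F, evl F = ev F a := fun F => rfl
  let eq : MvPolynomial (Fin n) ℂ ≃ₗ[ℂ] LinearMap.range e := LinearEquiv.ofInjective e hinj
  have hC0 : 0 ≤ (Real.sqrt c)⁻¹ * Real.exp (Nn a / 2) := by positivity
  let lam : StrongDual ℂ (LinearMap.range e) :=
    LinearMap.mkContinuous (evl ∘ₗ eq.symm.toLinearMap) ((Real.sqrt c)⁻¹ * Real.exp (Nn a / 2)) (by
      intro x
      obtain ⟨F, rfl⟩ := eq.surjective x
      have h1 : (evl ∘ₗ eq.symm.toLinearMap) (eq F) = ev F a := by
        show evl (eq.symm (eq F)) = _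
        rw [LinearEquiv.symm_apply_apply, hevl]
      have h2 : ‖eq F‖ = ‖emb (P * F)‖ := rfl
      rw [h1, h2, ← fn_emb]
      refine (fn_bd _ a).trans ?_
      have h3 := mul_le_mul_of_nonneg_right (hest F) (Real.exp_pos (Nn a / 2)).le
      linarith)
  have hlam : ∀ F, lam (eq F) = ev F a := by
    intro F
    show evl (eq.symm (eq F)) = _
    rw [LinearEquiv.symm_apply_apply, hevl]
  have hlamn : ‖lam‖ ≤ (Real.sqrt c)⁻¹ * Real.exp (Nn a / 2) :=
    LinearMap.mkContinuous_norm_le _ hC0 _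
  obtain ⟨g, hg1, hg2⟩ := exists_extension_norm_eq (LinearMap.range e) lam
  set w : L n := (InnerProductSpace.toDual ℂ (L n)).symm g with hw
  have hw1 : ∀ x, inner ℂ w x = g x := fun x => InnerProductSpace.toDual_symm_apply
  have hw2 : ‖w‖ ≤ (Real.sqrt c)⁻¹ * Real.exp (Nn a / 2) := by
    rw [hw, LinearIsometryEquiv.norm_map, hg2]
    exact hlamn
  let M := (LinearMap.range e).topologicalClosure
  have hMc : IsClosed (M : Set (L n)) := Submodule.isClosed_topologicalClosure _
  have : CompleteSpace M := hMc.completeSpace_coe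
  let u : L n := (M.orthogonalProjectionOnto w : L n)
  have hu1 : ∀ x ∈ M, inner ℂ u x = inner ℂ w x := by
    intro x hx
    have h1 := M.inner_orthogonalProjectionOnto_eq_of_mem_right (⟨x, hx⟩ : M) w
    exact h1
  have hu2 : ‖u‖ ≤ ‖w‖ := by
    have h1 := M.orthogonalProjectionOnto_norm_le
    have h2 := (M.orthogonalProjectionOnto).le_opNorm w
    have h3 : ‖u‖ = ‖M.orthogonalProjectionOnto w‖ := rfl
    rw [h3]
    refine h2.trans ?_
    have := mul_le_mul_of_nonneg_right h1 (norm_nonneg w)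
    rwa [one_mul] at this
  have hu3 : u ∈ closure ((LinearMap.range e : Submodule ℂ (L n)) : Set (L n)) :=
    (M.orthogonalProjectionOnto w).2
  obtain ⟨x, hx1, hx2⟩ := mem_closure_iff_seq_limit.1 hu3
  choose G hG using hx1
  have hG' : ∀ k, emb (P * G k) = x k := fun k => hG k
  have hcau : CauchySeq (fun k => emb (G k)) := by
    have h1 := hx2.cauchySeq
    rw [Metric.cauchySeq_iff] at h1 ⊢
    intro ε hε
    obtain ⟨N, hN⟩ := h1 (Real.sqrt c * ε) (by positivity)
    refine ⟨N, fun k hk l hl => ?_⟩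
    have h2 := hN k hk l hl
    rw [dist_eq_norm, ← hG', ← hG', ← emb_sub, ← mul_sub] at h2
    rw [dist_eq_norm, ← emb_sub]
    refine (hest _).trans_lt ?_
    rw [inv_mul_eq_div, div_lt_iff₀ hsc]
    linarith
  obtain ⟨v, hv⟩ := cauchySeq_tendsto_of_complete hcau
  refine ⟨u, v, G, hv, ?_, ?_, hu2.trans hw2⟩
  · simp_rw [hG']
    exact hx2
  · intro F
    have hmem : emb (P * F) ∈ LinearMap.range e := ⟨F, rfl⟩
    rw [hu1 _ (Submodule.le_topologicalClosure _ hmem), hw1]
    have h1 := hg1 (eq F)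
    have h2 : ((eq F : LinearMap.range e) : L n) = emb (P * F) := rfl
    rw [h2] at h1
    rw [h1, hlam]

end Pool.Agent.H28.FK
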