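import Pool.Agent.H28.FK.Expo
import Pool.Agent.H28.FK.Alg

/-! # [H28 FK SPACE] The Fischer space as `ℓ²`

* `emb_add`, `emb_smul`, `emb_sub`: coordinatewise. `inner_emb`: `⟪x, emb F⟫ = ∑ conj(x_α) sqrt(α!) F_α` (`lp.inner_eq_tsum`) and
  `Bp (ser x) F = ∑ F_α α! conj(x_α / sqrt(α!))` (`Bp_eq_tsum`), `α! / sqrt(α!) = sqrt(α!)`. `ser (emb F) = F`, so
  `⟪emb G, emb F⟫ = fis F G`; `norm_emb`: `‖emb F‖^2 = re ⟪emb F, emb F⟫ = fn2 F` (`fis_self`).
* `fn_hasSum`, `fn_bd`: `|coeff α (ser x) z^α| = |x_α| |z^α| / sqrt(α!)`; Cauchy-Schwarz for sums (`inner_le_Lp_mul_Lq` /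
  `Real.inner_le_Lp_mul_Lq_tsum_of_nonneg`, or `2ab ≤ a^2 t + b^2 / t`): `∑ |x_α| |z^α| / sqrt(α!) ≤ ‖x‖ (∑ |z^α|^2 / α!)^(1/2) = ‖x‖ exp (Nn z / 2)` by
  `hasSum_expo_real` with `w_j = ‖z_j‖^2`. So absolutely summable.
* `fn_sub`: `tsum_sub`. `fn_emb`: `coeff α (ser (emb F)) = F_α`, finite sum, `eval_eq`.
* `ser_lim`: `|x_α| ≤ ‖x‖` (`lp.norm_apply_le_norm`), so the coefficients converge.
* `fn_entire`: `limit_entire` (`H60.Final`) for `p = G` (the Cauchy condition from `fn_bd`: for `‖z‖ ≤ R` (sup norm) `Nn z ≤ n R^2`),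
  and the limit is `fn x` pointwise by `fn_bd`. -/

set_option autoImplicit false

open MvPolynomial Pool.Agent.H60
open scoped Topology ENNReal

noncomputable section

namespace Pool.Agent.H28.FK

variable {n : ℕ}

private theorem sq_pos (α : Fin n →₀ ℕ) : 0 < Real.sqrt (fac α) :=
  Real.sqrt_pos.2 (by exact_mod_cast fac_pos α)

private theorem sq_sq (α : Fin n →₀ ℕ) : (Real.sqrt (fac α) : ℂ) * (Real.sqrt (fac α) : ℂ) =
    (fac α : ℂ) := by
  rw [← Complex.ofReal_mul, Real.mul_self_sqrt (by positivity)]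
  push_cast
  rfl

private theorem sq_ne (α : Fin n →₀ ℕ) : (Real.sqrt (fac α) : ℂ) ≠ 0 := by
  exact_mod_cast (sq_pos α).ne'

private theorem emb_apply (F : MvPolynomial (Fin n) ℂ) (α : Fin n →₀ ℕ) :
    emb F α = (Real.sqrt (fac α) : ℂ) * F.coeff α := rfl

private theorem coeff_ser (x : L n) (α : Fin n →₀ ℕ) :
    MvPowerSeries.coeff α (ser x) = x α / (Real.sqrt (fac α) : ℂ) := rfl

theorem emb_add (F G : MvPolynomial (Fin n) ℂ) : emb (F + G) = emb F + emb G := by
  ext α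
  rw [lp.coeFn_add, Pi.add_apply, emb_apply, emb_apply, emb_apply, coeff_add, mul_add]

theorem emb_smul (c : ℂ) (F : MvPolynomial (Fin n) ℂ) : emb (c • F) = c • emb F := by
  ext α
  rw [lp.coeFn_smul, Pi.smul_apply, emb_apply, emb_apply, coeff_smul, smul_eq_mul, smul_eq_mul]
  ring

theorem emb_sub (F G : MvPolynomial (Fin n) ℂ) : emb (F - G) = emb F - emb G := by
  ext α
  rw [lp.coeFn_sub, Pi.sub_apply, emb_apply, emb_apply, emb_apply, coeff_sub, mul_sub]

theorem ser_emb (F : MvPolynomial (Fin n) ℂ) : ser (emb F) = (F : MvPowerSeries (Fin n) ℂ) := by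
  ext α
  rw [coeff_ser, emb_apply, MvPolynomial.coeff_coe]
  have := sq_ne α
  field_simp

theorem inner_emb (x : L n) (F : MvPolynomial (Fin n) ℂ) : inner ℂ x (emb F) = Bp (ser x) F := by
  rw [lp.inner_eq_tsum, Bp_eq_tsum]
  refine tsum_congr (fun α => ?_)
  rw [coeff_ser, emb_apply, RCLike.inner_apply, map_div₀, Complex.conj_ofReal, ← sq_sq]
  have := sq_ne α
  field_simp

theorem inner_emb_emb (F G : MvPolynomial (Fin n) ℂ) : inner ℂ (emb G) (emb F) = fis F G := by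
  rw [inner_emb, ser_emb]
  rfl

theorem norm_emb (F : MvPolynomial (Fin n) ℂ) : ‖emb F‖ ^ 2 = fn2 F := by
  have h1 := inner_self_eq_norm_sq_to_K (𝕜 := ℂ) (emb F)
  rw [inner_emb_emb, fis_self] at h1
  have h2 : ((fn2 F : ℝ) : ℂ) = ((‖emb F‖ ^ 2 : ℝ) : ℂ) := by
    rw [h1]
    push_cast
    rfl
  exact_mod_cast h2.symm

private theorem ker_sum (z : V n) :
    HasSum (fun α : Fin n →₀ ℕ => ‖(starRingEnd ℂ) (∏ j, z j ^ α j) / (Real.sqrt (fac α) : ℂ)‖ ^ 2)
      (Real.exp (Nn z)) := by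
  have h := hasSum_expo_real (n := n) (fun j => ‖z j‖ ^ 2)
  refine h.congr_fun ?_
  intro α
  rw [norm_div, RCLike.norm_conj, norm_prod, Complex.norm_real, Real.norm_of_nonneg (sq_pos α).le,
    div_pow, Real.sq_sqrt (by positivity), ← Finset.prod_pow]
  congr 1
  refine Finset.prod_congr rfl (fun j _ => ?_)
  rw [norm_pow, ← pow_mul, ← pow_mul, mul_comm]

private theorem ker_mem (z : V n) :
    Memℓp (fun α : Fin n →₀ ℕ => (starRingEnd ℂ) (∏ j, z j ^ α j) / (Real.sqrt (fac α) : ℂ)) 2 := by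
  refine memℓp_gen ?_
  refine (ker_sum z).summable.congr (fun α => ?_)
  rw [ENNReal.toReal_ofNat, ← Real.rpow_natCast]
  norm_num

/-- the reproducing kernel -/
private def ker (z : V n) : L n :=
  ⟨fun α => (starRingEnd ℂ) (∏ j, z j ^ α j) / (Real.sqrt (fac α) : ℂ), ker_mem z⟩

private theorem ker_apply (z : V n) (α : Fin n →₀ ℕ) :
    ker z α = (starRingEnd ℂ) (∏ j, z j ^ α j) / (Real.sqrt (fac α) : ℂ) := rfl

private theorem ker_norm (z : V n) : ‖ker z‖ = Real.exp (Nn z / 2) := by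
  have h1 : ‖ker z‖ ^ 2 = Real.exp (Nn z) := by
    have h2 := lp.norm_rpow_eq_tsum (p := 2) (by norm_num) (ker z)
    rw [ENNReal.toReal_ofNat] at h2
    have h3 : ‖ker z‖ ^ (2 : ℝ) = ‖ker z‖ ^ 2 := by
      rw [← Real.rpow_natCast]
      norm_num
    rw [← h3, h2, ← (ker_sum z).tsum_eq]
    refine tsum_congr (fun α => ?_)
    rw [ker_apply, ← Real.rpow_natCast]
    norm_num
  have h4 : Real.exp (Nn z / 2) ^ 2 = Real.exp (Nn z) := by
    rw [← Real.exp_nat_mul]
    congr 1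
    push_cast
    ring
  have h5 : ‖ker z‖ ^ 2 = Real.exp (Nn z / 2) ^ 2 := by rw [h1, h4]
  exact (pow_left_inj₀ (norm_nonneg _) (Real.exp_pos _).le two_ne_zero).1 h5

private theorem fn_hs (x : L n) (z : V n) :
    HasSum (fun α : Fin n →₀ ℕ => MvPowerSeries.coeff α (ser x) * ∏ j, z j ^ α j)
      (inner ℂ (ker z) x) := by
  refine (lp.hasSum_inner (ker z) x).congr_fun ?_
  intro α
  rw [coeff_ser, ker_apply, RCLike.inner_apply, map_div₀, Complex.conj_ofReal, Complex.conj_conj]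
  ring

private theorem fn_in (x : L n) (z : V n) : fn x z = inner ℂ (ker z) x :=
  (fn_hs x z).tsum_eq

theorem fn_hasSum (x : L n) (z : V n) :
    HasSum (fun α : Fin n →₀ ℕ => MvPowerSeries.coeff α (ser x) * ∏ j, z j ^ α j) (fn x z) := by
  rw [fn_in]
  exact fn_hs x z

theorem fn_bd (x : L n) (z : V n) : ‖fn x z‖ ≤ ‖x‖ * Real.exp (Nn z / 2) := by
  rw [fn_in, ← ker_norm, mul_comm]
  exact norm_inner_le_norm _ _

theorem fn_sub (x y : L n) (z : V n) : fn (x - y) z = fn x z - fn y z := by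
  rw [fn_in, fn_in, fn_in, inner_sub_right]

theorem fn_emb (F : MvPolynomial (Fin n) ℂ) (z : V n) : fn (emb F) z = ev F z := by
  unfold fn ev
  rw [ser_emb, tsum_eq_sum (s := F.support)]
  · rw [eval_eq']
    exact Finset.sum_congr rfl (fun α _ => by rw [MvPolynomial.coeff_coe])
  · intro α hα
    rw [MvPolynomial.coeff_coe, notMem_support_iff.mp hα, zero_mul]

theorem ser_lim (x : L n) (G : ℕ → L n) (h : Filter.Tendsto G Filter.atTop (𝓝 x))
    (α : Fin n →₀ ℕ) : Filter.Tendsto (fun k => MvPowerSeries.coeff α (ser (G k))) Filter.atTop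
      (𝓝 (MvPowerSeries.coeff α (ser x))) := by
  simp_rw [coeff_ser]
  have h1 : Filter.Tendsto (fun k => G k α) Filter.atTop (𝓝 (x α)) := by
    rw [tendsto_iff_norm_sub_tendsto_zero] at h ⊢
    refine squeeze_zero (fun k => norm_nonneg _) (fun k => ?_) h
    have h2 := lp.norm_apply_le_norm two_ne_zero (G k - x) α
    rwa [lp.coeFn_sub, Pi.sub_apply] at h2
  exact h1.div_const _

theorem fn_entire (x : L n) (G : ℕ → MvPolynomial (Fin n) ℂ)
    (h : Filter.Tendsto (fun k => emb (G k)) Filter.atTop (𝓝 x)) : Differentiable ℂ (fn x) := by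
  have hN : ∀ (R : ℝ) (z : V n), z ∈ Metric.closedBall (0 : V n) R →
      Real.exp (Nn z / 2) ≤ Real.exp (n * R ^ 2 / 2) := by
    intro R z hz
    rw [mem_closedBall_zero_iff] at hz
    refine Real.exp_le_exp.2 ?_
    have h5 : Nn z ≤ n * R ^ 2 := by
      unfold Nn
      calc ∑ j, ‖z j‖ ^ 2 ≤ ∑ _j : Fin n, R ^ 2 := by
            refine Finset.sum_le_sum (fun j _ => ?_)
            exact pow_le_pow_left₀ (norm_nonneg _) ((norm_le_pi_norm z j).trans hz) 2
        _ = n * R ^ 2 := by rw [Finset.sum_const, Finset.card_univ, Fintype.card_fin, nsmul_eq_mul]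
    linarith
  obtain ⟨f, hf, hf'⟩ := limit_entire G (by
    intro R e he
    have hc := h.cauchySeq
    rw [Metric.cauchySeq_iff] at hc
    obtain ⟨N, hNN⟩ := hc (e / Real.exp (n * R ^ 2 / 2)) (by positivity)
    refine ⟨N, fun i hi j hj z hz => ?_⟩
    have h1 := hNN i hi j hj
    rw [dist_eq_norm] at h1
    rw [← fn_emb, ← fn_emb, ← fn_sub]
    refine (fn_bd _ z).trans ?_
    have h2 := hN R z hz
    calc ‖emb (G i) - emb (G j)‖ * Real.exp (Nn z / 2)
        ≤ (e / Real.exp (n * R ^ 2 / 2)) * Real.exp (n * R ^ 2 / 2) :=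
          mul_le_mul h1.le h2 (Real.exp_pos _).le (by positivity)
      _ = e := by field_simp)
  have hfe : fn x = f := by
    funext z
    have t1 : Filter.Tendsto (fun k => ev (G k) z) Filter.atTop (𝓝 (f z)) := by
      rw [tendsto_iff_norm_sub_tendsto_zero, Metric.tendsto_atTop]
      intro e he
      obtain ⟨N, hNN⟩ := hf' ‖z‖ (e / 2) (by positivity)
      refine ⟨N, fun k hk => ?_⟩
      have := hNN k hk z (by rw [mem_closedBall_zero_iff])
      rw [dist_zero_right, norm_norm]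
      linarith
    have t2 : Filter.Tendsto (fun k => ev (G k) z) Filter.atTop (𝓝 (fn x z)) := by
      rw [tendsto_iff_norm_sub_tendsto_zero] at h ⊢
      have h3 : Filter.Tendsto (fun k => ‖emb (G k) - x‖ * Real.exp (Nn z / 2)) Filter.atTop
          (𝓝 0) := by
        have := h.mul_const (Real.exp (Nn z / 2))
        rwa [zero_mul] at this
      refine squeeze_zero (fun k => norm_nonneg _) (fun k => ?_) h3
      rw [← fn_emb, ← fn_sub]
      exact fn_bd _ z
    exact tendsto_nhds_unique t2 t1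
  rw [hfe]
  exact hf

end Pool.Agent.H28.FK
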